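import Pool.Agent.Helper18.BV.WtLemmas

/-! # Project BV (MP_265190_nt), module BV-14: from primitive characters to residue classes -/

set_option autoImplicit false

open Finset Filter Topology
open scoped ArithmeticFunction.vonMangoldt
open Pool.Agent.Helper18.BV

namespace Pool.Agent.Helper51.BV

/-! ### Dirichlet convolution sums -/

theorem sum_div_le (D : ℕ) (u v : ℕ → ℝ) (hu : ∀ n, 0 ≤ u n) (hv : ∀ n, 0 ≤ v n) :
    ∑ d ∈ Icc 1 D, ∑ q ∈ d.divisors, u q * v (d / q) ≤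
      (∑ q ∈ Icc 1 D, u q) * ∑ m ∈ Icc 1 D, v m := by
  rw [Finset.sum_sigma', Finset.sum_mul_sum, ← Finset.sum_product']
  set S : Finset (Σ _ : ℕ, ℕ) := (Icc 1 D).sigma (fun d => d.divisors) with hS
  have hinj : Set.InjOn (fun p : Σ _ : ℕ, ℕ => (p.2, p.1 / p.2)) S := by
    rintro ⟨d, q⟩ h ⟨d', q'⟩ h' he
    have h1 := Finset.mem_sigma.mp (Finset.mem_coe.mp h)
    have h2 := Finset.mem_sigma.mp (Finset.mem_coe.mp h')
    simp only [Prod.mk.injEq] at he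
    obtain ⟨he1, he2⟩ := he
    subst he1
    have e1 : d / q * q = d := Nat.div_mul_cancel (Nat.dvd_of_mem_divisors h1.2)
    have e2 : d' / q * q = d' := Nat.div_mul_cancel (Nat.dvd_of_mem_divisors h2.2)
    have : d = d' := by rw [← e1, ← e2, he2]
    subst this
    rfl
  have h1 : ∑ p ∈ S, u p.2 * v (p.1 / p.2) =
      ∑ r ∈ S.image (fun p : Σ _ : ℕ, ℕ => (p.2, p.1 / p.2)), u r.1 * v r.2 := by
    rw [Finset.sum_image hinj]
  rw [h1]
  refine Finset.sum_le_sum_of_subset_of_nonneg ?_ (fun r _ _ => mul_nonneg (hu _) (hv _))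
  intro r hr
  obtain ⟨⟨d, q⟩, hp, rfl⟩ := Finset.mem_image.mp hr
  obtain ⟨hd, hq⟩ := Finset.mem_sigma.mp hp
  rw [Finset.mem_Icc] at hd
  have hqd := Nat.dvd_of_mem_divisors hq
  have hq0 : 0 < q := Nat.pos_of_mem_divisors hq
  have hqle : q ≤ d := Nat.le_of_dvd hd.1 hqd
  simp only at hqd hq0 hqle ⊢
  rw [Finset.mem_product, Finset.mem_Icc, Finset.mem_Icc]
  exact ⟨⟨hq0, hqle.trans hd.2⟩, Nat.div_pos hqle hq0, (Nat.div_le_self _ _).trans hd.2⟩

theorem le_card_mul_totient (q : ℕ) : q ≤ q.divisors.card * q.totient := by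
  rcases Nat.eq_zero_or_pos q with h0 | h0
  · subst h0; simp
  conv_lhs => rw [← Nat.sum_totient q]
  rw [← smul_eq_mul]
  apply Finset.sum_le_card_nsmul
  intro d hd
  exact Nat.le_of_dvd (Nat.totient_pos.2 h0) (Nat.totient_dvd_of_dvd (Nat.dvd_of_mem_divisors hd))

theorem sum_inv_totient_le (D : ℕ) :
    ∑ m ∈ Icc 1 D, (1 : ℝ) / m.totient ≤ (1 + Real.log D) ^ 2 := by
  have h1 : ∀ m ∈ Icc 1 D, (1 : ℝ) / m.totient ≤
      ∑ q ∈ m.divisors, (1 / (q : ℝ)) * (1 / ((m / q : ℕ) : ℝ)) := by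
    intro m hm
    rw [Finset.mem_Icc] at hm
    have hm0 : (0 : ℝ) < m := by exact_mod_cast hm.1
    have ht : (0 : ℝ) < m.totient := by exact_mod_cast Nat.totient_pos.2 hm.1
    have h2 : ∀ q ∈ m.divisors, (1 / (q : ℝ)) * (1 / ((m / q : ℕ) : ℝ)) = 1 / m := by
      intro q hq
      have e : q * (m / q) = m := Nat.mul_div_cancel' (Nat.dvd_of_mem_divisors hq)
      rw [one_div_mul_one_div, ← Nat.cast_mul, e]
    rw [Finset.sum_congr rfl h2, Finset.sum_const, nsmul_eq_mul, mul_one_div,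
      div_le_div_iff₀ ht hm0]
    have := le_card_mul_totient m
    rw [one_mul]
    exact_mod_cast this
  refine (Finset.sum_le_sum h1).trans ?_
  refine (sum_div_le D (fun q => 1 / (q : ℝ)) (fun q => 1 / (q : ℝ)) (fun n => by positivity)
    (fun n => by positivity)).trans ?_
  have h2 : ∑ m ∈ Icc 1 D, (1 : ℝ) / m ≤ 1 + Real.log D := by
    have h3 : ∑ m ∈ Icc 1 D, (1 : ℝ) / m = ((harmonic D : ℚ) : ℝ) := by
      rw [harmonic_eq_sum_Icc]
      push_cast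
      refine Finset.sum_congr rfl (fun m _ => by rw [one_div])
    rw [h3]
    exact harmonic_le_one_add_log D
  have h4 : 0 ≤ ∑ m ∈ Icc 1 D, (1 : ℝ) / m := Finset.sum_nonneg fun m _ => by positivity
  rw [sq]
  exact mul_le_mul h2 h2 h4 (h4.trans h2)

/-! ### The integers not coprime to the modulus -/

/-- The contribution of the integers which are not coprime to `d`. -/
noncomputable def EE (g : ℝ → ℝ) (x : ℝ) (d : ℕ) : ℝ :=
  ∑ n ∈ (Icc 1 ⌊x⌋₊).filter (fun n => ¬ Nat.Coprime n d), Λ n * wt g x n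

theorem card_primePow_le (N d : ℕ) (hd : 0 < d) :
    ((Icc 1 N).filter (fun n => ¬ Nat.Coprime n d ∧ IsPrimePow n)).card ≤
      d.primeFactors.card * Nat.log 2 N := by
  have hsub : (Icc 1 N).filter (fun n => ¬ Nat.Coprime n d ∧ IsPrimePow n) ⊆
      (d.primeFactors ×ˢ Icc 1 (Nat.log 2 N)).image (fun p : ℕ × ℕ => p.1 ^ p.2) := by
    intro n hn
    obtain ⟨h1, h2, h3⟩ := Finset.mem_filter.mp hn
    rw [Finset.mem_Icc] at h1
    obtain ⟨p, k, hp, hk, rfl⟩ := h3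
    have hp' : p.Prime := Nat.prime_iff.mpr hp
    refine Finset.mem_image.mpr ⟨(p, k), ?_, rfl⟩
    rw [Finset.mem_product, Finset.mem_Icc, Nat.mem_primeFactors]
    refine ⟨⟨hp', ?_, hd.ne'⟩, hk, ?_⟩
    · by_contra hnd
      exact h2 (Nat.Coprime.pow_left k ((Nat.Prime.coprime_iff_not_dvd hp').mpr hnd))
    · have h4 : 2 ^ k ≤ N := (Nat.pow_le_pow_left hp'.two_le k).trans h1.2
      exact Nat.le_log_of_pow_le (by norm_num) h4
  refine (Finset.card_le_card hsub).trans (Finset.card_image_le.trans ?_)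
  rw [Finset.card_product, Nat.card_Icc, Nat.add_sub_cancel]

theorem EE_nonneg {g : ℝ → ℝ} (hg : IsWt g) (x : ℝ) (d : ℕ) : 0 ≤ EE g x d :=
  Finset.sum_nonneg fun _ _ => mul_nonneg ArithmeticFunction.vonMangoldt_nonneg (wt_nonneg hg _ _)

theorem card_primeFactors_le (d : ℕ) : d.primeFactors.card ≤ d := by
  have h : d.primeFactors ⊆ Icc 1 d := by
    intro p hp
    rw [Nat.mem_primeFactors] at hp
    exact Finset.mem_Icc.mpr ⟨hp.1.pos, Nat.le_of_dvd (Nat.pos_of_ne_zero hp.2.2) hp.2.1⟩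
  have := Finset.card_le_card h
  rwa [Nat.card_Icc, Nat.add_sub_cancel] at this

theorem natlog_le {x : ℝ} (hx : 3 ≤ x) : ((Nat.log 2 ⌊x⌋₊ : ℕ) : ℝ) ≤ 2 * Real.log x := by
  have h0 : ⌊x⌋₊ ≠ 0 := by
    have : 1 ≤ ⌊x⌋₊ := Nat.le_floor (by push_cast; linarith)
    omega
  have h1 : ((2 ^ Nat.log 2 ⌊x⌋₊ : ℕ) : ℝ) ≤ x :=
    (Nat.cast_le.mpr (Nat.pow_log_le_self 2 h0)).trans (Nat.floor_le (by linarith))
  push_cast at h1
  have h2 := Real.log_le_log (by positivity) h1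
  rw [Real.log_pow] at h2
  have h3 : (1 / 2 : ℝ) ≤ Real.log 2 := by
    have := Real.log_two_gt_d9; linarith
  have h4 : (0 : ℝ) ≤ (Nat.log 2 ⌊x⌋₊ : ℕ) := Nat.cast_nonneg _
  nlinarith

theorem EE_le {g : ℝ → ℝ} (hg : IsWt g) {G : ℝ} (hG : ∀ v, g v ≤ G) (hG0 : 0 < G) {x : ℝ}
    (hx : 3 ≤ x) (d : ℕ) (hd : 0 < d) :
    EE g x d ≤ d * (2 * Real.log x) * (Real.log x * (G / x ^ (1 / 2 : ℝ))) := by
  have hx1 : 1 < x := by linarith
  have hlog : 0 < Real.log x := Real.log_pos hx1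
  have hxs : 0 < x ^ (1 / 2 : ℝ) := Real.rpow_pos_of_pos (by linarith) _
  set T := (Icc 1 ⌊x⌋₊).filter (fun n => ¬ Nat.Coprime n d ∧ IsPrimePow n) with hT
  have h1 : EE g x d = ∑ n ∈ T, Λ n * wt g x n := by
    unfold EE
    symm
    refine Finset.sum_subset ?_ ?_
    · intro n hn
      rw [hT, Finset.mem_filter] at hn
      exact Finset.mem_filter.mpr ⟨hn.1, hn.2.1⟩
    · intro n hn hn'
      rw [Finset.mem_filter] at hn
      have h2 : ¬ IsPrimePow n := fun h => hn' (by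
        rw [hT]; exact Finset.mem_filter.mpr ⟨hn.1, hn.2, h⟩)
      rw [ArithmeticFunction.vonMangoldt_eq_zero_iff.mpr h2, zero_mul]
  have h2 : ∀ n ∈ T, Λ n * wt g x n ≤ Real.log x * (G / x ^ (1 / 2 : ℝ)) := by
    intro n hn
    rw [hT, Finset.mem_filter, Finset.mem_Icc] at hn
    have hn1 : (1 : ℝ) ≤ n := by exact_mod_cast hn.1.1
    have hnx : (n : ℝ) ≤ x := (Nat.cast_le.mpr hn.1.2).trans (Nat.floor_le (by linarith))
    have hL : Λ n ≤ Real.log x := by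
      refine (ArithmeticFunction.vonMangoldt_le_log (n := n)).trans ?_
      exact Real.log_le_log (by linarith) hnx
    have hw : wt g x n ≤ G / x ^ (1 / 2 : ℝ) := by
      by_cases h : (n : ℝ) ≤ x ^ (1 / 2 : ℝ)
      · rw [wt_zero hg hx1 h]; positivity
      · rw [not_le] at h
        unfold wt
        exact div_le_div₀ hG0.le (hG _) hxs h.le
    exact mul_le_mul hL hw (wt_nonneg hg _ _) hlog.le
  rw [h1]
  refine (Finset.sum_le_sum h2).trans ?_
  rw [Finset.sum_const, nsmul_eq_mul]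
  refine mul_le_mul_of_nonneg_right ?_ (by positivity)
  have h3 : (T.card : ℝ) ≤ d.primeFactors.card * (Nat.log 2 ⌊x⌋₊ : ℕ) := by
    exact_mod_cast card_primePow_le ⌊x⌋₊ d hd
  have h4 : (d.primeFactors.card : ℝ) ≤ d := by exact_mod_cast card_primeFactors_le d
  refine h3.trans (mul_le_mul h4 (natlog_le hx) (Nat.cast_nonneg _) (Nat.cast_nonneg _))

/-! ### Characters -/

theorem SS_sub_restr {g : ℝ → ℝ} (hg : IsWt g) (x : ℝ) {q : ℕ} (χ : DirichletCharacter ℂ q) (d : ℕ) :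
    ‖SS LaC g x χ - ∑ n ∈ (Icc 1 ⌊x⌋₊).filter (fun n => Nat.Coprime n d),
      LaC n * χ (n : ZMod q) * (wt g x n : ℂ)‖ ≤ EE g x d := by
  unfold SS EE
  rw [← Finset.sum_filter_add_sum_filter_not (Icc 1 ⌊x⌋₊) (fun n => Nat.Coprime n d),
    add_sub_cancel_left]
  refine (norm_sum_le _ _).trans (Finset.sum_le_sum fun n _ => ?_)
  rw [norm_mul, norm_mul, LaC_apply, Complex.norm_real, Complex.norm_real,
    Real.norm_of_nonneg ArithmeticFunction.vonMangoldt_nonneg,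
    Real.norm_of_nonneg (wt_nonneg hg _ _)]
  have h1 : ‖χ (n : ZMod q)‖ ≤ 1 := DirichletCharacter.norm_le_one χ _
  have h2 : 0 ≤ Λ n := ArithmeticFunction.vonMangoldt_nonneg
  have h3 := wt_nonneg hg x n
  exact mul_le_mul_of_nonneg_right (mul_le_of_le_one_right h2 h1) h3

theorem prim_apply {d : ℕ} (χ : DirichletCharacter ℂ d) {n : ℕ} (hn : Nat.Coprime n d) :
    χ.primitiveCharacter (n : ZMod χ.conductor) = χ (n : ZMod d) := by
  have h := χ.primitiveCharacter_apply_of_isCoprime (a := (n : ℤ))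
    (Nat.isCoprime_iff_coprime.mpr hn)
  push_cast at h
  exact h

theorem SS_full {g : ℝ → ℝ} (x : ℝ) {d : ℕ} (χ : DirichletCharacter ℂ d) :
    SS LaC g x χ = ∑ n ∈ (Icc 1 ⌊x⌋₊).filter (fun n => Nat.Coprime n d),
      LaC n * χ (n : ZMod d) * (wt g x n : ℂ) := by
  unfold SS
  symm
  refine Finset.sum_subset (Finset.filter_subset _ _) ?_
  intro n hn hn'
  have h : ¬ IsUnit ((n : ZMod d)) := by
    rw [ZMod.isUnit_iff_coprime]
    exact fun h => hn' (Finset.mem_filter.mpr ⟨hn, h⟩)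
  rw [χ.map_nonunit h, mul_zero, zero_mul]

theorem SS_prim {g : ℝ → ℝ} (hg : IsWt g) (x : ℝ) {d : ℕ} (χ : DirichletCharacter ℂ d) :
    ‖SS LaC g x χ‖ ≤ ‖SS LaC g x χ.primitiveCharacter‖ + EE g x d := by
  have h1 := SS_sub_restr hg x χ.primitiveCharacter d
  have h2 : (∑ n ∈ (Icc 1 ⌊x⌋₊).filter (fun n => Nat.Coprime n d),
      LaC n * χ.primitiveCharacter (n : ZMod χ.conductor) * (wt g x n : ℂ)) = SS LaC g x χ := by
    rw [SS_full x χ]
    refine Finset.sum_congr rfl fun n hn => ?_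
    rw [prim_apply χ (Finset.mem_filter.mp hn).2]
  rw [h2] at h1
  have h3 := norm_sub_norm_le (SS LaC g x χ) (SS LaC g x χ.primitiveCharacter)
  rw [norm_sub_rev] at h1
  linarith

theorem SS_one {g : ℝ → ℝ} (hg : IsWt g) (x : ℝ) {d : ℕ} :
    ‖SS LaC g x (1 : DirichletCharacter ℂ d) -
      ((∑ n ∈ Icc 1 ⌊x⌋₊, Λ n * wt g x n : ℝ) : ℂ)‖ ≤ EE g x d := by
  rw [SS_full]
  have h1 : (∑ n ∈ (Icc 1 ⌊x⌋₊).filter (fun n => Nat.Coprime n d),
      LaC n * (1 : DirichletCharacter ℂ d) (n : ZMod d) * (wt g x n : ℂ)) =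
      ((∑ n ∈ (Icc 1 ⌊x⌋₊).filter (fun n => Nat.Coprime n d), Λ n * wt g x n : ℝ) : ℂ) := by
    push_cast
    refine Finset.sum_congr rfl fun n hn => ?_
    rw [MulChar.one_apply ((ZMod.isUnit_iff_coprime n d).mpr (Finset.mem_filter.mp hn).2),
      mul_one, LaC_apply]
  rw [h1, ← Complex.ofReal_sub, Complex.norm_real,
    ← Finset.sum_filter_add_sum_filter_not (Icc 1 ⌊x⌋₊) (fun n => Nat.Coprime n d)]
  rw [Real.norm_eq_abs, sub_add_cancel_left, abs_neg]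
  exact le_of_eq (abs_of_nonneg (EE_nonneg hg x d))

theorem orth {g : ℝ → ℝ} (x : ℝ) {d : ℕ} [NeZero d] {c : ℕ} (hc : Nat.Coprime c d) :
    (d.totient : ℂ) * ((∑ n ∈ (Icc 1 ⌊x⌋₊).filter (fun n => n ≡ c [MOD d]),
      Λ n * wt g x n : ℝ) : ℂ) =
      ∑ χ : DirichletCharacter ℂ d, χ ((c : ZMod d)⁻¹) * SS LaC g x χ := by
  have hu : IsUnit ((c : ZMod d)) := (ZMod.isUnit_iff_coprime c d).mpr hc
  unfold SS
  simp_rw [Finset.mul_sum]
  rw [Finset.sum_comm]
  have h1 : ∀ n ∈ Icc 1 ⌊x⌋₊, (∑ χ : DirichletCharacter ℂ d, χ ((c : ZMod d)⁻¹) *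
      (LaC n * χ (n : ZMod d) * (wt g x n : ℂ))) =
      if n ≡ c [MOD d] then (d.totient : ℂ) * ((Λ n * wt g x n : ℝ) : ℂ) else 0 := by
    intro n _
    have h2 : (∑ χ : DirichletCharacter ℂ d, χ ((c : ZMod d)⁻¹) *
      (LaC n * χ (n : ZMod d) * (wt g x n : ℂ))) =
      (∑ χ : DirichletCharacter ℂ d, χ ((c : ZMod d)⁻¹) * χ (n : ZMod d)) *
        (LaC n * (wt g x n : ℂ)) := by
      rw [Finset.sum_mul]
      refine Finset.sum_congr rfl fun χ _ => ?_
      ring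
    rw [h2, DirichletCharacter.sum_char_inv_mul_char_eq ℂ hu]
    have h3 : ((c : ZMod d) = (n : ZMod d)) ↔ n ≡ c [MOD d] := by
      rw [eq_comm, ZMod.natCast_eq_natCast_iff]
    simp only [h3]
    split_ifs
    · rw [LaC_apply]; push_cast; ring
    · rw [zero_mul]
  rw [Finset.sum_congr rfl h1, ← Finset.sum_filter]
  push_cast
  rw [Finset.mul_sum]

/-- The primitive characters inducing the nonprincipal characters modulo `d`. -/
theorem sum_prim_le {d : ℕ} [NeZero d] (F : (Σ q : ℕ, DirichletCharacter ℂ q) → ℝ)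
    (hF : ∀ p, 0 ≤ F p) :
    ∑ χ ∈ (univ : Finset (DirichletCharacter ℂ d)).filter (fun χ => χ ≠ 1),
      F ⟨χ.conductor, χ.primitiveCharacter⟩ ≤
      ∑ q ∈ d.divisors.filter (fun q => 1 < q), ∑ ψ ∈ prim q, F ⟨q, ψ⟩ := by
  classical
  have hrec : ∀ (p p' : Σ q : ℕ, DirichletCharacter ℂ q) (h : p.1 ∣ d) (h' : p'.1 ∣ d), p = p' →
      DirichletCharacter.changeLevel h p.2 = DirichletCharacter.changeLevel h' p'.2 := by
    rintro p _ h h' rfl; rfl
  set A := (univ : Finset (DirichletCharacter ℂ d)).filter (fun χ => χ ≠ 1) with hA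
  have hinj : Set.InjOn (fun χ : DirichletCharacter ℂ d =>
      (⟨χ.conductor, χ.primitiveCharacter⟩ : Σ q : ℕ, DirichletCharacter ℂ q)) A := by
    intro χ _ χ' _ he
    have := hrec _ _ χ.conductor_dvd_level χ'.conductor_dvd_level he
    rwa [χ.changeLevel_primitiveCharacter, χ'.changeLevel_primitiveCharacter] at this
  have h1 : ∑ χ ∈ A, F ⟨χ.conductor, χ.primitiveCharacter⟩ =
      ∑ p ∈ A.image (fun χ : DirichletCharacter ℂ d =>
        (⟨χ.conductor, χ.primitiveCharacter⟩ : Σ q : ℕ, DirichletCharacter ℂ q)), F p := by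
    rw [Finset.sum_image hinj]
  rw [h1, Finset.sum_sigma']
  refine Finset.sum_le_sum_of_subset_of_nonneg ?_ (fun p _ _ => hF _)
  intro p hp
  obtain ⟨χ, hχ, rfl⟩ := Finset.mem_image.mp hp
  rw [hA, Finset.mem_filter] at hχ
  have hdvd := χ.conductor_dvd_level
  have hd : d ≠ 0 := NeZero.ne d
  have h2 : χ.conductor ≠ 1 := fun h => hχ.2 (DirichletCharacter.eq_one_iff_conductor_eq_one.mpr h)
  have h3 : χ.conductor ≠ 0 := fun h => hd (by rw [h] at hdvd; exact zero_dvd_iff.mp hdvd)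
  rw [Finset.mem_sigma, Finset.mem_filter, Nat.mem_divisors]
  have h4 : 1 < χ.conductor := by omega
  exact ⟨⟨⟨hdvd, hd⟩, h4⟩, mem_prim.mpr χ.primitiveCharacter_isPrimitive⟩

theorem card_char (d : ℕ) [NeZero d] :
    (univ : Finset (DirichletCharacter ℂ d)).card = d.totient := by
  have h2 : Nat.card (DirichletCharacter ℂ d) = d.totient :=
    DirichletCharacter.card_eq_totient_of_hasEnoughRootsOfUnity ℂ d
  rw [Nat.card_eq_fintype_card] at h2
  rw [← h2, Finset.card_univ]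

/-- The error term of one modulus. -/
theorem one_modulus {g : ℝ → ℝ} (hg : IsWt g) (x : ℝ) {d : ℕ} (hd : 0 < d) {c : ℕ}
    (hc : Nat.Coprime c d) :
    |∑ n ∈ (Icc 1 ⌊x⌋₊).filter (fun n => n ≡ c [MOD d]), Λ n * wt g x n -
          (1 / (d.totient : ℝ)) * ∑ n ∈ Icc 1 ⌊x⌋₊, Λ n * wt g x n| ≤
      (1 / (d.totient : ℝ)) * ∑ q ∈ d.divisors.filter (fun q => 1 < q),
        ∑ ψ ∈ prim q, ‖SS LaC g x ψ‖ + EE g x d := by
  classical
  have : NeZero d := ⟨hd.ne'⟩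
  have ht : (0 : ℝ) < d.totient := by exact_mod_cast Nat.totient_pos.2 hd
  set S1 : ℝ := ∑ n ∈ (Icc 1 ⌊x⌋₊).filter (fun n => n ≡ c [MOD d]), Λ n * wt g x n with hS1
  set S : ℝ := ∑ n ∈ Icc 1 ⌊x⌋₊, Λ n * wt g x n with hS
  have h1 := orth (g := g) x hc
  rw [← hS1, ← Finset.sum_filter_add_sum_filter_not univ (fun χ : DirichletCharacter ℂ d => χ ≠ 1)]
    at h1
  have h2 : (univ.filter (fun χ : DirichletCharacter ℂ d => ¬ χ ≠ 1)) = {1} := by
    ext χ; simp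
  have hu : IsUnit ((c : ZMod d)⁻¹) := by
    have := (ZMod.isUnit_iff_coprime c d).mpr hc
    obtain ⟨u, hu⟩ := this
    rw [← hu, ZMod.inv_coe_unit]
    exact Units.isUnit _
  rw [h2, Finset.sum_singleton, MulChar.one_apply hu, one_mul] at h1
  have h3 : ((d.totient * S1 - S : ℝ) : ℂ) =
      (∑ χ ∈ univ.filter (fun χ : DirichletCharacter ℂ d => χ ≠ 1),
        χ ((c : ZMod d)⁻¹) * SS LaC g x χ) + (SS LaC g x (1 : DirichletCharacter ℂ d) - (S : ℂ)) := by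
    push_cast
    rw [h1]; ring
  have h4 : |d.totient * S1 - S| ≤
      (∑ χ ∈ univ.filter (fun χ : DirichletCharacter ℂ d => χ ≠ 1),
        (‖SS LaC g x χ.primitiveCharacter‖ + EE g x d)) + EE g x d := by
    rw [← Real.norm_eq_abs, ← Complex.norm_real, h3]
    refine (norm_add_le _ _).trans (add_le_add ((norm_sum_le _ _).trans
      (Finset.sum_le_sum fun χ _ => ?_)) (SS_one hg x))
    rw [norm_mul]
    calc ‖χ ((c : ZMod d)⁻¹)‖ * ‖SS LaC g x χ‖ ≤ 1 * ‖SS LaC g x χ‖ :=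
          mul_le_mul_of_nonneg_right (DirichletCharacter.norm_le_one χ _) (norm_nonneg _)
      _ ≤ _ := by rw [one_mul]; exact SS_prim hg x χ
  rw [Finset.sum_add_distrib, Finset.sum_const, nsmul_eq_mul] at h4
  have h5 := sum_prim_le (d := d) (fun p => ‖SS LaC g x p.2‖) (fun p => norm_nonneg _)
  have h6 : ((univ.filter (fun χ : DirichletCharacter ℂ d => χ ≠ 1)).card : ℝ) + 1 = d.totient := by
    have h7 := Finset.card_filter_add_card_filter_not (s := (univ : Finset (DirichletCharacter ℂ d)))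
      (fun χ => χ ≠ 1)
    rw [h2, Finset.card_singleton, card_char d] at h7
    exact_mod_cast h7
  have h8 : S1 - 1 / (d.totient : ℝ) * S = (d.totient * S1 - S) / d.totient := by
    field_simp
  rw [h8, abs_div, abs_of_pos ht, div_le_iff₀ ht]
  have h9 : ((1 / (d.totient : ℝ)) * ∑ q ∈ d.divisors.filter (fun q => 1 < q),
        ∑ ψ ∈ prim q, ‖SS LaC g x ψ‖ + EE g x d) * d.totient =
        (∑ q ∈ d.divisors.filter (fun q => 1 < q), ∑ ψ ∈ prim q, ‖SS LaC g x ψ‖) +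
          EE g x d * d.totient := by
    field_simp
  rw [h9]
  refine h4.trans ?_
  simp only at h5
  have h10 : EE g x d * d.totient =
      ((univ.filter (fun χ : DirichletCharacter ℂ d => χ ≠ 1)).card : ℝ) * EE g x d + EE g x d := by
    rw [← h6]; ring
  rw [h10]
  linarith

theorem card_prim_le (q : ℕ) (hq : 0 < q) : ((prim q).card : ℝ) ≤ q.totient := by
  have : NeZero q := ⟨hq.ne'⟩
  have h1 : (prim q).card ≤ (univ : Finset (DirichletCharacter ℂ q)).card :=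
    Finset.card_le_card (Finset.subset_univ _)
  rw [card_char] at h1
  exact_mod_cast h1

theorem swap (g : ℝ → ℝ) (x : ℝ) (D : ℕ) :
    ∑ d ∈ Icc 1 D, (1 / (d.totient : ℝ)) * ∑ q ∈ d.divisors.filter (fun q => 1 < q),
        ∑ ψ ∈ prim q, ‖SS LaC g x ψ‖ ≤
      (∑ q ∈ Ioc 1 D, (1 / (q.totient : ℝ)) * ∑ ψ ∈ prim q, ‖SS LaC g x ψ‖) *
        ∑ m ∈ Icc 1 D, (1 : ℝ) / m.totient := by
  set T : ℕ → ℝ := fun q => ∑ ψ ∈ prim q, ‖SS LaC g x ψ‖ with hT
  have hT0 : ∀ q, 0 ≤ T q := fun q => Finset.sum_nonneg fun _ _ => norm_nonneg _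
  set u : ℕ → ℝ := fun q => if 1 < q then (1 / (q.totient : ℝ)) * T q else 0 with hu
  have hu0 : ∀ q, 0 ≤ u q := by
    intro q
    simp only [hu]
    split_ifs
    · exact mul_nonneg (by positivity) (hT0 q)
    · exact le_rfl
  have h1 := sum_div_le D u (fun m => (1 : ℝ) / m.totient) hu0 (fun m => by positivity)
  have h2 : ∑ q ∈ Icc 1 D, u q = ∑ q ∈ Ioc 1 D, (1 / (q.totient : ℝ)) * T q := by
    symm
    rw [← Finset.sum_subset (s₁ := Ioc 1 D) (s₂ := Icc 1 D)]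
    · refine Finset.sum_congr rfl fun q hq => ?_
      simp only [hu]
      rw [if_pos (Finset.mem_Ioc.mp hq).1]
    · intro q hq
      rw [Finset.mem_Ioc] at hq
      exact Finset.mem_Icc.mpr ⟨hq.1.le, hq.2⟩
    · intro q hq hq'
      simp only [hu]
      rw [if_neg]
      intro h
      exact hq' (Finset.mem_Ioc.mpr ⟨h, (Finset.mem_Icc.mp hq).2⟩)
  rw [h2] at h1
  refine le_trans (Finset.sum_le_sum fun d hd => ?_) h1
  rw [Finset.mem_Icc] at hd
  have h3 : ∑ q ∈ d.divisors, u q * (1 / ((d / q).totient : ℝ)) =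
      ∑ q ∈ d.divisors.filter (fun q => 1 < q),
        (1 / (q.totient : ℝ)) * T q * (1 / ((d / q).totient : ℝ)) := by
    rw [Finset.sum_filter]
    refine Finset.sum_congr rfl fun q _ => ?_
    simp only [hu]
    split_ifs
    · rfl
    · rw [zero_mul]
  rw [h3, Finset.mul_sum]
  refine Finset.sum_le_sum fun q hq => ?_
  have hqd := (Finset.mem_filter.mp hq).1
  have hq0 : 0 < q := Nat.pos_of_mem_divisors hqd
  have hdvd := Nat.dvd_of_mem_divisors hqd
  have hdq : 0 < d / q := Nat.div_pos (Nat.le_of_dvd hd.1 hdvd) hq0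
  have e : q * (d / q) = d := Nat.mul_div_cancel' hdvd
  have h4 : q.totient * (d / q).totient ≤ d.totient := by
    have := Nat.totient_super_multiplicative q (d / q)
    rwa [e] at this
  have h5 : (q.totient : ℝ) * (d / q).totient ≤ d.totient := by exact_mod_cast h4
  have p1 : (0 : ℝ) < q.totient := by exact_mod_cast Nat.totient_pos.2 hq0
  have p2 : (0 : ℝ) < (d / q).totient := by exact_mod_cast Nat.totient_pos.2 hdq
  have h6 : 1 / (d.totient : ℝ) ≤ 1 / ((q.totient : ℝ) * (d / q).totient) :=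
    one_div_le_one_div_of_le (by positivity) h5
  calc 1 / (d.totient : ℝ) * T q ≤ 1 / ((q.totient : ℝ) * (d / q).totient) * T q :=
        mul_le_mul_of_nonneg_right h6 (hT0 q)
    _ = 1 / (q.totient : ℝ) * T q * (1 / ((d / q).totient : ℝ)) := by
        field_simp

/-- BV-14: the theorem for residue classes. -/
theorem bvav (h1 : Small) (h2 : Large) : BVav := by
  intro g hg A hA
  obtain ⟨G, hG0, hG⟩ := hg.exists_bound
  obtain ⟨B, C1, X1, hB, hC1, hX1, hL⟩ := h2 g hg (A + 2) (by linarith)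
  obtain ⟨C2, X2, hC2, hX2, hS⟩ := h1 g hg (A + 2 + B) B (by linarith) hB
  have hev : ∀ᶠ x : ℝ in atTop, ‖Real.log x ^ (A + 2)‖ ≤ 1 * ‖x ^ (9 / 20 : ℝ)‖ :=
    (isLittleO_log_rpow_rpow_atTop (A + 2) (by norm_num : (0 : ℝ) < 9 / 20)).bound one_pos
  obtain ⟨X3, hX3⟩ := Filter.eventually_atTop.mp hev
  refine ⟨4 * (C1 + C2) + 2 * G, max (max X1 X2) X3, by positivity,
    hX1.trans ((le_max_left _ _).trans (le_max_left _ _)), ?_⟩
  intro x hx c hc
  have hx1 : X1 ≤ x := ((le_max_left _ _).trans (le_max_left _ _)).trans hx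
  have hx2 : X2 ≤ x := ((le_max_right _ _).trans (le_max_left _ _)).trans hx
  have hx3 : X3 ≤ x := (le_max_right _ _).trans hx
  have h3x : 3 ≤ x := hX1.trans hx1
  have hx0 : 0 < x := by linarith
  set l : ℝ := Real.log x with hl
  have hl1 : 1 ≤ l := by
    rw [hl, Real.le_log_iff_exp_le hx0]
    linarith [Real.exp_one_lt_d9]
  have hl0 : 0 < l := by linarith
  set D : ℕ := ⌊x ^ (1 / 40 : ℝ)⌋₊ with hD
  have hDx : (D : ℝ) ≤ x ^ (1 / 40 : ℝ) := Nat.floor_le (Real.rpow_nonneg hx0.le _)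
  -- the large conductors
  have hLx := hL x hx1
  -- the small conductors
  set T : ℕ → ℝ := fun q => ∑ ψ ∈ prim q, ‖SS LaC g x ψ‖ with hT
  have hT0 : ∀ q, 0 ≤ T q := fun q => Finset.sum_nonneg fun _ _ => norm_nonneg _
  have hSx : ∑ q ∈ Ioc 1 ⌊l ^ B⌋₊, (1 / (q.totient : ℝ)) * T q ≤ C2 / l ^ (A + 2) := by
    have hterm : ∀ q ∈ Ioc 1 ⌊l ^ B⌋₊, (1 / (q.totient : ℝ)) * T q ≤ C2 / l ^ (A + 2 + B) := by
      intro q hq
      rw [Finset.mem_Ioc] at hq
      have hq0 : 0 < q := by omega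
      have hqB : (q : ℝ) ≤ l ^ B :=
        (Nat.cast_le.mpr hq.2).trans (Nat.floor_le (Real.rpow_nonneg hl0.le _))
      have p1 : (0 : ℝ) < q.totient := by exact_mod_cast Nat.totient_pos.2 hq0
      have h4 : T q ≤ (prim q).card • (C2 / l ^ (A + 2 + B)) :=
        Finset.sum_le_card_nsmul _ _ _ fun ψ hψ => hS x hx2 q hq.1 hqB ψ hψ
      rw [nsmul_eq_mul] at h4
      have h5 : T q ≤ q.totient * (C2 / l ^ (A + 2 + B)) :=
        h4.trans (mul_le_mul_of_nonneg_right (card_prim_le q hq0) (by positivity))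
      calc 1 / (q.totient : ℝ) * T q ≤ 1 / (q.totient : ℝ) * (q.totient * (C2 / l ^ (A + 2 + B))) :=
            mul_le_mul_of_nonneg_left h5 (by positivity)
        _ = C2 / l ^ (A + 2 + B) := by field_simp
    refine (Finset.sum_le_card_nsmul _ _ _ hterm).trans ?_
    rw [nsmul_eq_mul, Nat.card_Ioc]
    have h6 : ((⌊l ^ B⌋₊ - 1 : ℕ) : ℝ) ≤ l ^ B := by
      have h7 : ((⌊l ^ B⌋₊ - 1 : ℕ) : ℝ) ≤ (⌊l ^ B⌋₊ : ℕ) := by exact_mod_cast Nat.sub_le _ _
      exact h7.trans (Nat.floor_le (Real.rpow_nonneg hl0.le _))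
    calc ((⌊l ^ B⌋₊ - 1 : ℕ) : ℝ) * (C2 / l ^ (A + 2 + B)) ≤ l ^ B * (C2 / l ^ (A + 2 + B)) :=
          mul_le_mul_of_nonneg_right h6 (by positivity)
      _ = C2 / l ^ (A + 2) := by
          rw [Real.rpow_add hl0 (A + 2) B]
          have : 0 < l ^ B := Real.rpow_pos_of_pos hl0 _
          have : 0 < l ^ (A + 2) := Real.rpow_pos_of_pos hl0 _
          field_simp
  have hall : ∑ q ∈ Ioc 1 D, (1 / (q.totient : ℝ)) * T q ≤ (C1 + C2) / l ^ (A + 2) := by
    have hsub : Ioc 1 D ⊆ Ioc 1 ⌊l ^ B⌋₊ ∪ Ioc ⌊l ^ B⌋₊ D := by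
      intro q hq
      rw [Finset.mem_Ioc] at hq
      rw [Finset.mem_union, Finset.mem_Ioc, Finset.mem_Ioc]
      by_cases h : q ≤ ⌊l ^ B⌋₊
      · exact Or.inl ⟨hq.1, h⟩
      · exact Or.inr ⟨by omega, hq.2⟩
    have hnn : ∀ q, 0 ≤ (1 / (q.totient : ℝ)) * T q := fun q => mul_nonneg (by positivity) (hT0 q)
    calc ∑ q ∈ Ioc 1 D, (1 / (q.totient : ℝ)) * T q
        ≤ ∑ q ∈ Ioc 1 ⌊l ^ B⌋₊ ∪ Ioc ⌊l ^ B⌋₊ D, (1 / (q.totient : ℝ)) * T q :=
          Finset.sum_le_sum_of_subset_of_nonneg hsub fun q _ _ => hnn q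
      _ ≤ (∑ q ∈ Ioc 1 ⌊l ^ B⌋₊, (1 / (q.totient : ℝ)) * T q) +
          ∑ q ∈ Ioc ⌊l ^ B⌋₊ D, (1 / (q.totient : ℝ)) * T q := by
          rw [← Finset.sum_union_inter]
          exact le_add_of_nonneg_right (Finset.sum_nonneg fun q _ => hnn q)
      _ ≤ C2 / l ^ (A + 2) + C1 / l ^ (A + 2) := add_le_add hSx hLx
      _ = (C1 + C2) / l ^ (A + 2) := by ring
  -- the sum of 1 / φ
  have hphi : ∑ m ∈ Icc 1 D, (1 : ℝ) / m.totient ≤ 4 * l ^ 2 := by
    refine (sum_inv_totient_le D).trans ?_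
    have h7 : Real.log D ≤ l := by
      rcases Nat.eq_zero_or_pos D with h0 | h0
      · rw [h0]; simp; exact hl0.le
      · have h8 : (D : ℝ) ≤ x := by
          refine hDx.trans ?_
          calc x ^ (1 / 40 : ℝ) ≤ x ^ (1 : ℝ) :=
                Real.rpow_le_rpow_of_exponent_le (by linarith) (by norm_num)
            _ = x := Real.rpow_one x
        exact Real.log_le_log (by exact_mod_cast h0) h8
    have h9 : 0 ≤ Real.log D := Real.log_natCast_nonneg D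
    nlinarith
  -- the integers not coprime to the modulus
  have hEE : ∑ d ∈ Icc 1 D, EE g x d ≤ 2 * G / l ^ A := by
    have h7 : ∀ d ∈ Icc 1 D, EE g x d ≤ D * (2 * l) * (l * (G / x ^ (1 / 2 : ℝ))) := by
      intro d hd
      rw [Finset.mem_Icc] at hd
      refine (EE_le hg hG hG0 h3x d hd.1).trans ?_
      have : (d : ℝ) ≤ D := by exact_mod_cast hd.2
      have hxs : 0 < x ^ (1 / 2 : ℝ) := Real.rpow_pos_of_pos hx0 _
      gcongr
    refine (Finset.sum_le_card_nsmul _ _ _ h7).trans ?_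
    rw [nsmul_eq_mul, Nat.card_Icc, Nat.add_sub_cancel]
    have hxs : 0 < x ^ (1 / 2 : ℝ) := Real.rpow_pos_of_pos hx0 _
    have h8 : (D : ℝ) * D ≤ x ^ (1 / 20 : ℝ) := by
      calc (D : ℝ) * D ≤ x ^ (1 / 40 : ℝ) * x ^ (1 / 40 : ℝ) :=
            mul_le_mul hDx hDx (Nat.cast_nonneg _) (Real.rpow_nonneg hx0.le _)
        _ = x ^ (1 / 20 : ℝ) := by rw [← Real.rpow_add hx0]; norm_num
    have h9 := hX3 x hx3
    rw [one_mul, Real.norm_of_nonneg (Real.rpow_nonneg hl0.le _),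
      Real.norm_of_nonneg (Real.rpow_nonneg hx0.le _)] at h9
    have h10 : x ^ (1 / 20 : ℝ) * x ^ (9 / 20 : ℝ) = x ^ (1 / 2 : ℝ) := by
      rw [← Real.rpow_add hx0]; norm_num
    have hlA : 0 < l ^ A := Real.rpow_pos_of_pos hl0 _
    have h11 : l ^ (A + 2) = l ^ A * l ^ 2 := by
      rw [Real.rpow_add hl0]; norm_num
    have h12 : (D : ℝ) * D * l ^ (A + 2) ≤ x ^ (1 / 2 : ℝ) := by
      rw [← h10]
      exact mul_le_mul h8 h9 (Real.rpow_nonneg hl0.le _) (Real.rpow_nonneg hx0.le _)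
    rw [h11] at h12
    rw [le_div_iff₀ hlA]
    have h13 : (D : ℝ) * (D * (2 * l) * (l * (G / x ^ (1 / 2 : ℝ)))) * l ^ A =
        2 * G * ((D : ℝ) * D * (l ^ A * l ^ 2)) / x ^ (1 / 2 : ℝ) := by
      field_simp
    rw [h13, div_le_iff₀ hxs]
    exact mul_le_mul_of_nonneg_left h12 (by positivity)
  -- conclusion
  have hlA : 0 < l ^ A := Real.rpow_pos_of_pos hl0 _
  have h11 : l ^ (A + 2) = l ^ A * l ^ 2 := by
    rw [Real.rpow_add hl0]; norm_num
  calc ∑ d ∈ Icc 1 D,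
        |∑ n ∈ (Icc 1 ⌊x⌋₊).filter (fun n => n ≡ c d [MOD d]), Λ n * wt g x n -
          (1 / (d.totient : ℝ)) * ∑ n ∈ Icc 1 ⌊x⌋₊, Λ n * wt g x n|
      ≤ ∑ d ∈ Icc 1 D, ((1 / (d.totient : ℝ)) * ∑ q ∈ d.divisors.filter (fun q => 1 < q),
        ∑ ψ ∈ prim q, ‖SS LaC g x ψ‖ + EE g x d) := by
        refine Finset.sum_le_sum fun d hd => ?_
        exact one_modulus hg x (Finset.mem_Icc.mp hd).1 (hc d)
    _ = (∑ d ∈ Icc 1 D, (1 / (d.totient : ℝ)) * ∑ q ∈ d.divisors.filter (fun q => 1 < q),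
        ∑ ψ ∈ prim q, ‖SS LaC g x ψ‖) + ∑ d ∈ Icc 1 D, EE g x d := Finset.sum_add_distrib
    _ ≤ (C1 + C2) / l ^ (A + 2) * (4 * l ^ 2) + 2 * G / l ^ A := by
        refine add_le_add ((swap g x D).trans ?_) hEE
        refine mul_le_mul hall hphi (Finset.sum_nonneg fun m _ => by positivity) (by positivity)
    _ = (4 * (C1 + C2) + 2 * G) / l ^ A := by
        rw [h11]
        field_simp

end Pool.Agent.Helper51.BV
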